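import Pool.Agent.Run7.h325.RSI.Stm

set_option autoImplicit false

/-! Project RSI (helper325), piece LARGE. -/

namespace Pool.Agent.Run7.h325.RSI

open MeasureTheory Filter Topology Metric

namespace LARGEaux

theorem gen (hGINT : S_GINT) (hGRP : S_GRP) (m : ℕ) (hm : 1 ≤ m) (at' : ℤ × ℤ → E2) (Z : Set E2)
    (hZ : Z = Set.range at') (hne : Z.Nonempty)
    (hlat : ∀ a ∈ Z, ∀ x : E2, ‖x - a‖ ≤ 1 / 4 → infDist x Z = ‖x - a‖) (x : E2) (R : ℝ)
    (hR : 1 / 16 ≤ R) (s : Finset (ℤ × ℤ)) (hs : ∀ p : ℤ × ℤ, ‖x - at' p‖ ≤ R + 1 / 16 → p ∈ s)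
    (hc : (s.card : ℝ) ≤ 400 * R ^ 2) (hvol : (volume (ball x R)).toReal = Real.pi * R ^ 2) :
    IntegrableOn (fun y => Gr m (infDist y Z)) (ball x R) ∧
      ∫ y in ball x R, Gr m (infDist y Z) ≤ 5 * (m : ℝ) ^ 2 * (Real.pi * R ^ 2) := by
  have hm0 : (0 : ℝ) < m := by exact_mod_cast hm
  have hm1 : (1 : ℝ) ≤ m := by exact_mod_cast hm
  have hr0 : 0 < r0 m := by unfold r0; positivity
  have hr1 : r0 m ≤ 1 / 16 := by
    unfold r0
    rw [div_le_div_iff₀ (by positivity) (by norm_num)]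
    linarith
  obtain ⟨hg1, -, -, hg4, hgm⟩ := hGRP m hm
  obtain ⟨hi, hv⟩ := hGINT m hm (r0 m) hr0 le_rfl
  rw [div_self hr0.ne', Real.one_rpow, mul_one] at hv
  obtain ⟨F, hF⟩ : ∃ F : E2 → ℝ, F = (ball (0 : E2) (r0 m)).indicator fun z => Gr m ‖z‖ := ⟨_, rfl⟩
  have hFi : Integrable F := by
    rw [hF]
    exact hi.integrable_indicator measurableSet_ball
  have hFv : ∫ z, F z = 2 * Real.pi * r0 m ^ 2 * (m : ℝ) ^ 4 := by
    rw [hF, integral_indicator measurableSet_ball]
    exact hv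
  have hF0 : ∀ z, 0 ≤ F z := by
    intro z
    rw [hF]
    exact Set.indicator_nonneg (fun z _ => zero_le_one.trans (hg1 _)) z
  have hterm : ∀ p : ℤ × ℤ, Integrable fun y => F (y - at' p) := fun p => hFi.comp_sub_right (at' p)
  have hone : Integrable (fun _ : E2 => (1 : ℝ)) (volume.restrict (ball x R)) :=
    integrableOn_const (measure_ball_lt_top.ne)
  have hH : IntegrableOn (fun y => 1 + ∑ p ∈ s, F (y - at' p)) (ball x R) := by
    apply Integrable.add
    · exact hone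
    · exact (integrable_finsetSum s fun p _ => hterm p).integrableOn
  have hle : ∀ y ∈ ball x R, Gr m (infDist y Z) ≤ 1 + ∑ p ∈ s, F (y - at' p) := by
    intro y hy
    have hsum : 0 ≤ ∑ p ∈ s, F (y - at' p) := Finset.sum_nonneg fun p _ => hF0 _
    by_cases h1 : r0 m ≤ infDist y Z
    · rw [hg4 _ h1]
      linarith
    · rw [not_le, infDist_lt_iff hne] at h1
      obtain ⟨a, ha, hya⟩ := h1
      rw [dist_eq_norm] at hya
      rw [hlat a ha y (by linarith)]
      rw [hZ] at ha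
      obtain ⟨p, hp⟩ := ha
      have hps : p ∈ s := by
        apply hs
        rw [hp]
        rw [mem_ball, dist_eq_norm] at hy
        have h2 : ‖x - a‖ ≤ ‖y - x‖ + ‖y - a‖ := by
          have h3 : x - a = -(y - x) + (y - a) := by abel
          rw [h3]
          refine (norm_add_le _ _).trans ?_
          rw [norm_neg]
        linarith
      have h3 : F (y - at' p) ≤ ∑ p ∈ s, F (y - at' p) :=
        Finset.single_le_sum (f := fun p => F (y - at' p)) (fun p _ => hF0 _) hps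
      have h4 : F (y - at' p) = Gr m ‖y - a‖ := by
        rw [hF, hp, Set.indicator_of_mem]
        rw [mem_ball, dist_zero_right]
        exact hya
      linarith
  have hmeas : AEStronglyMeasurable (fun y => Gr m (infDist y Z)) (volume.restrict (ball x R)) :=
    (hgm.comp (continuous_infDist_pt Z).measurable).aestronglyMeasurable
  have hint : IntegrableOn (fun y => Gr m (infDist y Z)) (ball x R) := by
    refine Integrable.mono' hH hmeas ?_
    filter_upwards [ae_restrict_mem measurableSet_ball] with y hy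
    rw [Real.norm_eq_abs, abs_of_nonneg (zero_le_one.trans (hg1 _))]
    exact hle y hy
  refine ⟨hint, ?_⟩
  have h5 : ∫ y in ball x R, Gr m (infDist y Z) ≤ ∫ y in ball x R, (1 + ∑ p ∈ s, F (y - at' p)) :=
    setIntegral_mono_on hint hH measurableSet_ball hle
  have h6 : ∫ y in ball x R, (1 + ∑ p ∈ s, F (y - at' p)) =
      Real.pi * R ^ 2 + ∑ p ∈ s, ∫ y in ball x R, F (y - at' p) := by
    rw [integral_add hone
      ((integrable_finsetSum s fun p _ => hterm p).integrableOn), integral_finsetSum]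
    · congr 1
      rw [setIntegral_const, smul_eq_mul, mul_one]
      exact hvol
    · exact fun p _ => (hterm p).integrableOn
  have h7 : ∀ p ∈ s, ∫ y in ball x R, F (y - at' p) ≤ 2 * Real.pi * r0 m ^ 2 * (m : ℝ) ^ 4 := by
    intro p _
    rw [← hFv, ← integral_sub_right_eq_self F (at' p)]
    exact setIntegral_le_integral (hterm p) (Eventually.of_forall fun y => hF0 _)
  have h8 : ∑ p ∈ s, ∫ y in ball x R, F (y - at' p) ≤
      400 * R ^ 2 * (2 * Real.pi * r0 m ^ 2 * (m : ℝ) ^ 4) := by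
    refine (Finset.sum_le_sum h7).trans ?_
    rw [Finset.sum_const, nsmul_eq_mul]
    exact mul_le_mul_of_nonneg_right hc (by positivity)
  have h9 : 400 * R ^ 2 * (2 * Real.pi * r0 m ^ 2 * (m : ℝ) ^ 4) =
      Real.pi * R ^ 2 * (25 / 8 * (m : ℝ) ^ 2) := by
    unfold r0
    field_simp
    ring
  have h10 : 0 ≤ Real.pi * R ^ 2 := by positivity
  have h11 : (1 : ℝ) ≤ (m : ℝ) ^ 2 := one_le_pow₀ hm1
  rw [h6] at h5
  have h12 : Real.pi * R ^ 2 * 1 ≤ Real.pi * R ^ 2 * (m : ℝ) ^ 2 := mul_le_mul_of_nonneg_left h11 h10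
  nlinarith [h5, h8, h9, h12, mul_nonneg h10 (sq_nonneg (m : ℝ))]

end LARGEaux

theorem t_LARGE (hRAD : S_RAD) (hGINT : S_GINT) (hGRP : S_GRP) (hLAT : S_LAT) (hCNT : S_CNT) : S_LARGE := by
  intro m hm x R hR
  obtain ⟨hfn, hwn, hf, hw⟩ := hLAT
  obtain ⟨⟨s, hs, hsc⟩, ⟨s', hs', hsc'⟩⟩ := hCNT x R hR
  have hvol := hRAD.2.2 x R (by linarith)
  exact ⟨LARGEaux.gen hGINT hGRP m hm zz Zw rfl hwn (fun a ha y hy => (hw a ha y hy).1) x R hR s' hs' hsc' hvol,
    LARGEaux.gen hGINT hGRP m hm ze Zf rfl hfn (fun a ha y hy => (hf a ha y hy).1) x R hR s hs hsc hvol⟩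

end Pool.Agent.Run7.h325.RSI
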